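import Pool.Agent.Q141.FR.Wid

/-!
# Each inequality `δ_w < δ_v` is a finite statement, with a polynomial rate

`balance P` is the balance constant of `P`, `HasWidth P w` says that the largest antichains of `P`
have `w` elements, and `dW w` is the infimum `δ_w` of the balance constants of the posets of
width `w`.

* For every `ε > 0` there are `c > 0` and `n₀` such that every poset `P` with `δ(P) < 1 / 2 - ε` and
  every `n ≥ n₀` admit a poset `Q` with exactly `n` elements, of the same width as `P`, with
  `δ(Q) ≤ δ(P) + n ^ (-c)`.  The constants do not depend on the width.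
* For every `W ≥ 1` there are `c > 0` and `n₀` such that for all `w, v` between `1` and `W`:
  for `n ≥ n₀` the least balance constant of the posets of width `w` with `n` elements is at most
  `δ_w + n ^ (-c)`, and `δ_w < δ_v` holds if and only if for some `n ≥ n₀` the least balance
  constant of the posets of width `w` with `n` elements is smaller than the one for width `v` by
  more than `n ^ (-c)`.  With `v = w + 1` this is the inequality of the question.

Proof.  By a starting result (`ManyIncomparable` of `MP_33fb9b_co`) all elements of `P` are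
incomparable to at most `K(ε)` others.  Number the elements by
a linear extension.  The probabilities in the middle of a window of length `L` are determined by
the window up to a factor `1 + exp (- c' L)` (contraction of the ratios of the numbers of completions).
Among many windows of length `L` two are equal, and the part between them is cut out; no new windows
arise, and a window which contains an antichain with `w` elements is kept.  What remains has at most
`exp (c'' L)` elements.
-/

set_option autoImplicit false

namespace Pool.Agent.Results.MP_c890a7_co.FiniteSteps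

open Pool.Agent.H13R3.WB Pool.Agent.H931R3.Bal Pool.Agent.Q141.FR

theorem result :
    -- a poset is replaced by a poset with `n` elements of the same width
    (∀ ε : ℝ, 0 < ε → ε ≤ 1 / 2 → ∃ c : ℝ, 0 < c ∧ ∃ n₀ : ℕ, ∀ n : ℕ, n₀ ≤ n →
      ∀ (P : Type) [Fintype P] [PartialOrder P] [Nonempty P], balance P < 1 / 2 - ε →
      ∀ w : ℕ, HasWidth P w →
      ∃ (Q : Type) (_ : Fintype Q) (_ : PartialOrder Q), Fintype.card Q = n ∧ HasWidth Q w ∧
        balance Q ≤ balance P + (n : ℝ) ^ (-c)) ∧
    -- for the widths up to `W`: the rate of convergence, and the inequalities `δ_w < δ_v`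
    (∀ W : ℕ, 1 ≤ W → ∃ c : ℝ, 0 < c ∧ ∃ n₀ : ℕ,
      (∀ w : ℕ, 1 ≤ w → w ≤ W → ∀ n : ℕ, n₀ ≤ n →
        ∃ (Q : Type) (_ : Fintype Q) (_ : PartialOrder Q), Fintype.card Q = n ∧ HasWidth Q w ∧
          balance Q ≤ dW w + (n : ℝ) ^ (-c)) ∧
      (∀ w v : ℕ, 1 ≤ w → w ≤ W → 1 ≤ v → v ≤ W →
        (dW w < dW v ↔ ∃ n : ℕ, n₀ ≤ n ∧ ∃ (Q : Type) (_ : Fintype Q) (_ : PartialOrder Q),
          Fintype.card Q = n ∧ HasWidth Q w ∧
          ∀ (R : Type) [Fintype R] [PartialOrder R], Fintype.card R = n → HasWidth R v →
            balance Q + (n : ℝ) ^ (-c) < balance R))) := by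
  refine ⟨fun ε hε hε2 => ?_, fun W hW => compare_W hW⟩
  obtain ⟨c, hc, n₀, _, h⟩ := main_W hε hε2
  exact ⟨c, hc, n₀, h⟩

end Pool.Agent.Results.MP_c890a7_co.FiniteSteps
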