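import Pool.Agent.Q109.SW.Main
import Pool.Agent.Q109.SO.Example2
import Pool.Agent.TH447.KS.SemiFin

/-!
# Minimal balance constants of semiorders: the first three steps

`dS w` is the infimum of the balance constants of the semiorders of width `w`.  Then `dS 1 = 0`,
`dS 2 = 1/3`, `dS 3 = 14/39 = 0.35897...` (attained, by a semiorder with seven elements) and
`dS w ≥ 9/25 = 0.36` for every `w ≥ 4`; so the first three inequalities
`dS 1 < dS 2 < dS 3 < dS 4` of the problem hold for semiorders, and `dS 3 < dS w` for every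
`w ≥ 4`.

Method.  Number the elements of a semiorder such that the sets of predecessors grow and the sets of
successors shrink; let `r x` be the last element not above `x` and `l x` the first element not
below `x`.  At the first element `x` with `r x ≥ x + 3` one has `r x + l x - 2 x ≥ 1`.  This quantity
decreases by at most one in each step (if there are no twins) and is negative at the end.  At its
next passage from one to zero, the place is still wide, and a window of at most seven elements has
a balanced pair (linear programming certificates, verified by the kernel), or `r` makes a jump of at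
least three; then the situation repeats later with a larger width.
-/

set_option autoImplicit false

namespace Pool.Agent.Results.MP_c890a7_co.SemiorderThreeSteps

open Finset Pool.Agent.H13R3.WB Pool.Agent.H931R3.Bal Pool.Agent.TH447.KS

/-- Positions of the seven elements on the line, times ten. -/
def pos7 : Fin 7 → ℕ := ![0, 9, 11, 18, 22, 27, 33]

lemma pos7_spec : ∀ x y : Fin 7, Q109.SO.r7 x < y.val ↔ pos7 x + 10 < pos7 y := by decide

lemma S7_unit : TH447.KS.IsSemiorder Q109.SO.S7 := by
  refine ⟨fun x => (pos7 x : ℝ) / 10, fun x y => ?_⟩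
  rw [Q109.SO.S7_lt, pos7_spec x y]
  constructor
  · intro h
    have : ((pos7 x + 10 : ℕ) : ℝ) < (pos7 y : ℕ) := by exact_mod_cast h
    push_cast at this
    linarith
  · intro h
    have : ((pos7 x + 10 : ℕ) : ℝ) < (pos7 y : ℕ) := by
      push_cast
      linarith
    exact_mod_cast this

lemma four7 : ∀ s : Finset (Fin 7), 4 ≤ s.card → ∃ a ∈ s, ∃ b ∈ s, Q109.SO.r7 a < b.val := by
  decide +kernel

lemma four7S (s : Finset Q109.SO.S7) (h : 4 ≤ s.card) :
    ∃ a b : Q109.SO.S7, a ∈ s ∧ b ∈ s ∧ a < b := by
  obtain ⟨a, ha, b, hb, hab⟩ := four7 s h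
  exact ⟨a, b, ha, hb, hab⟩

lemma S7_width : HasWidth Q109.SO.S7 3 := by
  constructor
  · refine ⟨{Q109.SO.el 1, Q109.SO.el 2, Q109.SO.el 3}, ?_, by decide⟩
    intro x hx y hy hxy hle
    have hlt := lt_of_le_of_ne hle hxy
    rw [Q109.SO.S7_lt] at hlt
    simp only [coe_insert, coe_singleton, Set.mem_insert_iff, Set.mem_singleton_iff] at hx hy
    rcases hx with rfl | rfl | rfl <;> rcases hy with rfl | rfl | rfl <;> revert hlt <;> decide
  · intro s hs
    by_contra hcon
    obtain ⟨a, b, ha, hb, hlt⟩ := four7S s (not_le.1 hcon)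
    exact hs ha hb hlt.ne hlt.le

lemma semi_of_unit {P : Type} [PartialOrder P] (h : TH447.KS.IsSemiorder P) :
    Q109.SO.IsSemiorder P := by
  obtain ⟨f, hf⟩ := h
  constructor
  · intro a b c d h1 h2
    rw [hf] at h1 h2 ⊢
    rw [hf]
    by_contra hcon
    push Not at hcon
    linarith [hcon.1, hcon.2]
  · intro a b c d h1 h2
    rw [hf] at h1 h2 ⊢
    rw [hf]
    by_contra hcon
    push Not at hcon
    linarith [hcon.1, hcon.2]

theorem wide {P : Type} [Fintype P] [PartialOrder P] (h : TH447.KS.IsSemiorder P) {w : ℕ}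
    (hw : 4 ≤ w) (h2 : HasWidth P w) : 9 / 25 ≤ balance P := by
  obtain ⟨⟨A, hA, hc⟩, -⟩ := h2
  exact Q109.SO.semi_wide _ P rfl (semi_of_unit h) A hA (by omega)

theorem dS_three : dS 3 = 14 / 39 := by
  apply le_antisymm
  · refine (dS_le (by norm_num) Q109.SO.S7 S7_unit S7_width).trans ?_
    exact Q109.SO.balance_S7_le
  · apply dS_ge
    intro P _ _ h1 h2
    have := HasWidth.nonempty h2 (by norm_num)
    rcases Q109.SO.semi_gap P (semi_of_unit h1) with h | h
    · exfalso
      obtain ⟨⟨s, hs, hsc⟩, _⟩ := h2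
      have := InD_width_le h s hs
      omega
    · exact h

theorem dS_wide {w : ℕ} (hw : 4 ≤ w) : 9 / 25 ≤ dS w :=
  dS_ge fun _ _ _ h1 h2 => wide h1 hw h2

theorem result :
    -- the minimal balance constants of semiorders
    dS 1 = 0 ∧ dS 2 = 1 / 3 ∧ dS 3 = 14 / 39 ∧ (∀ w : ℕ, 4 ≤ w → 9 / 25 ≤ dS w) ∧
    -- strict growth in the first three steps
    dS 1 < dS 2 ∧ dS 2 < dS 3 ∧ dS 3 < dS 4 ∧ (∀ w : ℕ, 4 ≤ w → dS 3 < dS w) ∧
    -- the value for width three is attained
    (∃ (P : Type) (_ : Fintype P) (_ : PartialOrder P), TH447.KS.IsSemiorder P ∧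
      HasWidth P 3 ∧ balance P = 14 / 39) ∧
    -- every semiorder with an antichain of four elements, also as an autonomous subset
    (∀ (P : Type) [Fintype P] [PartialOrder P], TH447.KS.IsSemiorder P →
      (∃ A : Finset P, IsAntichain (· ≤ ·) (A : Set P) ∧ A.card = 4) → 9 / 25 ≤ balance P) ∧
    (∀ (P : Type) [Fintype P] [PartialOrder P] (M : Set P), Autonomous M →
      TH447.KS.IsSemiorder M → (∃ A : Finset M, IsAntichain (· ≤ ·) (A : Set M) ∧ A.card = 4) →
      9 / 25 ≤ balance P) := by
  refine ⟨dS_one, dS_two, dS_three, fun w hw => dS_wide hw, ?_, ?_, ?_, ?_, ?_, ?_, ?_⟩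
  · rw [dS_one, dS_two]; norm_num
  · rw [dS_two, dS_three]; norm_num
  · rw [dS_three]
    exact lt_of_lt_of_le (by norm_num) (dS_wide (w := 4) (by norm_num))
  · intro w hw
    rw [dS_three]
    exact lt_of_lt_of_le (by norm_num) (dS_wide hw)
  · refine ⟨Q109.SO.S7, inferInstance, inferInstance, S7_unit, S7_width, ?_⟩
    refine le_antisymm Q109.SO.balance_S7_le ?_
    rw [← dS_three]
    exact dS_le (by norm_num) Q109.SO.S7 S7_unit S7_width
  · rintro P _ _ h ⟨A, hA, hc⟩
    exact Q109.SO.semi_wide _ P rfl (semi_of_unit h) A hA (by omega)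
  · rintro P _ _ M hM h ⟨A, hA, hc⟩
    have : Fintype M := Fintype.ofFinite M
    have hne : Nonempty M := by
      obtain ⟨x, _⟩ := Finset.card_pos.1 (show 0 < A.card by omega)
      exact ⟨x⟩
    exact (Q109.SO.semi_wide _ M rfl (semi_of_unit h) A hA (by omega)).trans
      (balance_autonomous hM)

end Pool.Agent.Results.MP_c890a7_co.SemiorderThreeSteps
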