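import Pool.Agent.Q289.SPI.Main
import Pool.Agent.Q289.SPI.Fin

/-!
# Minimal balance constants of series-parallel interval orders by width

`IsSPI P` says that `P` is series-parallel (built from points by disjoint and direct sums) and an
interval order, that is, `P` contains neither `N` nor `2 + 2`.  `dSPI w` is the infimum of the
balance constants of the series-parallel interval orders of width `w`.

* The infimum is attained for every `w`, and `dSPI w ≤ dSPI (w + 1)` for every `w`.
* `dSPI w` is `0, 1/3, 8/21, 136/315, 4/9, 29/64` for `w = 1, …, 6` and at least `34/75` for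
  `w ≥ 7`, so that the first six inequalities `dSPI w < dSPI (w + 1)` of the problem hold.
* `1/2 - 3 (1 + log w)/w ≤ dSPI w ≤ 1/2 - 1/(12 w - 8)`, and `dSPI w < dSPI v` for all
  `v ≥ 250 w (1 + log w)`.
* Below every `c < 1/2` there are only finitely many balance constants in the class.
* The bounds hold for every poset with an autonomous subset of the class of width `w`.

Method.  A poset of the class is a direct sum of blocks, and a block with more than one element is
`{z} + W` with an isolated element `z`; if `W` has `n` elements then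
`Pr[x < z] = 1 - h(x)/(n + 1)` with the average heights `h(x)` of `W`, and the average heights of
the block are `(n + 2)/(n + 1) h(x)` and `(n + 2)/2`.  If all these probabilities are outside of
`[c, 1 - c]` then `W` has no average height in `[c (n + 1), (1 - c)(n + 1)]`.  As the average
heights of `W` have bounded gaps, `n` is bounded; the finitely many blocks are enumerated and the
enumeration is checked by the kernel.
-/

set_option autoImplicit false

namespace Pool.Agent.Results.MP_c890a7_co.SeriesParallelIntervalOrders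

open Pool.Agent.H13R3.WB Pool.Agent.H931R3.Bal Pool.Agent.Q289.SPI

theorem result :
    -- all widths: the infimum is attained and does not decrease
    (∀ w : ℕ, 1 ≤ w → (∃ (P : Type) (_ : Fintype P) (_ : PartialOrder P), IsSPI P ∧
      HasWidth P w ∧ balance P = dSPI w) ∧ dSPI w ≤ dSPI (w + 1)) ∧
    -- the first six values
    dSPI 1 = 0 ∧ dSPI 2 = 1 / 3 ∧ dSPI 3 = 8 / 21 ∧ dSPI 4 = 136 / 315 ∧ dSPI 5 = 4 / 9 ∧
    dSPI 6 = 29 / 64 ∧ (∀ w : ℕ, 7 ≤ w → 34 / 75 ≤ dSPI w) ∧
    -- strict growth in the first six steps
    (∀ w : ℕ, 1 ≤ w → w ≤ 6 → dSPI w < dSPI (w + 1)) ∧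
    -- bounds for all widths, strict growth over larger distances
    (∀ w : ℕ, 1 ≤ w → 1 / 2 - 3 * (1 + Real.log w) / w ≤ dSPI w ∧
      dSPI w ≤ 1 / 2 - 1 / (12 * (w : ℝ) - 8)) ∧
    (∀ w v : ℕ, 1 ≤ w → 250 * (w : ℝ) * (1 + Real.log w) ≤ v → dSPI w < dSPI v) ∧
    -- finitely many balance constants below every `c < 1/2`
    (∀ c : ℝ, c < 1 / 2 → {d : ℝ | d < c ∧
      ∃ (P : Type) (_ : Fintype P) (_ : PartialOrder P), IsSPI P ∧ balance P = d}.Finite) ∧
    -- posets with an autonomous subset of the class
    (∀ (P : Type) [Fintype P] [PartialOrder P] (M : Set P), Autonomous M → IsSPI M →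
      ∀ w : ℕ, 1 ≤ w → HasWidth M w → dSPI w ≤ balance P) := by
  have h7 : ∀ w : ℕ, 7 ≤ w → 34 / 75 ≤ dSPI w :=
    fun w hw => dSPI_ge (by omega) fun P _ _ h1 h2 => low7 w hw P h1 h2
  refine ⟨fun w hw => ⟨attained w hw, dSPI_mono w hw⟩, val1.1, val2.1, val3.1, val4.1, val5.1,
    val6.1, h7, ?_, fun w hw => ⟨dSPI_lower w hw, dSPI_upper w hw⟩, dSPI_growth, finite_below, ?_⟩
  · intro w h1 h2
    interval_cases w
    · rw [val1.1, val2.1]; norm_num
    · rw [val2.1, val3.1]; norm_num
    · rw [val3.1, val4.1]; norm_num
    · rw [val4.1, val5.1]; norm_num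
    · rw [val5.1, val6.1]; norm_num
    · rw [val6.1]
      exact lt_of_lt_of_le (by norm_num) (h7 7 le_rfl)
  · intro P _ _ M hM hS w hw hwid
    classical
    have hne := HasWidth.ne hwid hw
    have : Fintype M := Fintype.ofFinite M
    exact (dSPI_le hw M hS hwid).trans (balance_autonomous hM)

end Pool.Agent.Results.MP_c890a7_co.SeriesParallelIntervalOrders
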