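import Pool.Agent.Q66.SP.Sp7

/-!
# Series-parallel posets with balance constant below `2/5`

A finite series-parallel poset has balance constant less than `2/5` exactly if it is a direct
(ordinal) sum of one-element posets, three-element posets with one relation, and copies of a
certain poset with seven elements; then the balance constant is `0`, `1/3` or `8/21`.  All these
posets have width at most three.  So the first three inequalities of the problem,
`dSP 1 < dSP 2 < dSP 3 < dSP 4`, hold for series-parallel posets, and `dSP 3 < dSP w` for every
`w ≥ 4`.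

Method.  Let `P` and `Q` be two posets of the class, `Q` not larger than `P`.  The elements of `P`
have rank distributions with denominator `21`.  For an element `y` of `Q` let `G i` be the
probability that at least `i` elements of a chain of the size of `P` come before `y` in a random
linear extension of the disjoint sum.  If `G` has jumps at most `21/215`, then the probabilities
`Pr[x < y]` cannot jump over the interval from `2/5` to `3/5` when `x` runs through the blocks of
`P`; this holds for all large sizes (monotonicity in the size of `P`, and central binomial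
coefficients for `Q` with at least `37` elements), for an element `y` of the block of `Q` that
contains a rank near the middle.  For small sizes a search (dynamic programming over all words of
blocks, run by the kernel) shows the same, with two exceptions: the three-element and the
seven-element poset themselves.
-/

set_option autoImplicit false

namespace Pool.Agent.Results.MP_c890a7_co.SeriesParallelThreeSteps

open Pool.Agent.H13R3.WB Pool.Agent.H931R3.Bal Pool.Agent.Q66.SP

/-- The posets with balance constant below `2/5` in the class of series-parallel posets: the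
classification and their values; the values `0`, `1/3`, `8/21` and `2/5` are attained; the first
steps by width; all posets with a series-parallel autonomous subset outside the class; reduction of
gaps up to `2/5` to irreducible posets. -/
theorem result :
    (∀ (P : Type) [Fintype P] [PartialOrder P], SeriesParallel P →
      (InD7 P ↔ balance P < 2 / 5) ∧
      (balance P < 2 / 5 → balance P = 0 ∨ balance P = 1 / 3 ∨ balance P = 8 / 21) ∧
      (∀ s : Finset P, IsAntichain (· ≤ ·) (s : Set P) → 4 ≤ s.card → 2 / 5 ≤ balance P)) ∧
    (∀ c ∈ ({0, 1 / 3, 8 / 21, 2 / 5} : Set ℝ), ∃ (P : Type) (_ : Fintype P) (_ : PartialOrder P),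
      SeriesParallel P ∧ balance P = c) ∧
    (dSP 1 = 0 ∧ dSP 2 = 1 / 3 ∧ dSP 3 = 8 / 21 ∧ (∀ w : ℕ, 4 ≤ w → 2 / 5 ≤ dSP w)) ∧
    (dSP 1 < dSP 2 ∧ dSP 2 < dSP 3 ∧ ∀ w : ℕ, 4 ≤ w → dSP 3 < dSP w) ∧
    (∀ (P : Type) [Fintype P] [PartialOrder P] (M : Set P), Autonomous M → SeriesParallel M →
      ¬ InD7 M → 2 / 5 ≤ balance P) ∧
    (∀ c : ℝ, c ≤ 2 / 5 →
      (∀ (P : Type) [Fintype P] [PartialOrder P] [Nonempty P], Irreducible7 P →
        InD7 P ∨ c ≤ balance P) →
      (∀ (P : Type) [Fintype P] [PartialOrder P] [Nonempty P], InD7 P ∨ c ≤ balance P) ∧
      ∀ w : ℕ, 4 ≤ w → ∀ (P : Type) [Fintype P] [PartialOrder P], HasWidth P w →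
        c ≤ balance P) := by
  refine ⟨?_, ?_, ⟨dSP_one, dSP_two, dSP_three, dSP_four⟩, ⟨?_, ?_, ?_⟩, ?_, ?_⟩
  · intro P _ _ h
    exact ⟨iff_lt h, values h, sp_antichain h⟩
  · intro c hc
    simp only [Set.mem_insert_iff, Set.mem_singleton_iff] at hc
    rcases hc with rfl | rfl | rfl | rfl
    · exact ⟨Fin 1, inferInstance, inferInstance, sp_one, balance_chain (fun x y => le_total x y)⟩
    · exact ⟨EE, inferInstance, inferInstance, sp_EE, le_antisymm balance_EE_le balance_EE_ge⟩
    · exact ⟨X7, inferInstance, inferInstance, sp_sharp.1, sp_sharp.2.2⟩
    · exact ⟨F4, inferInstance, inferInstance, sp_F4, balance_F4⟩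
  · rw [dSP_one, dSP_two]; norm_num
  · rw [dSP_two, dSP_three]; norm_num
  · intro w hw
    rw [dSP_three]
    exact lt_of_lt_of_le (by norm_num) (dSP_four w hw)
  · intro P _ _ M hM h1 h2
    exact autonomous7 hM h1 h2
  · intro c hc h
    refine ⟨reduction7 hc h, ?_⟩
    intro w hw P _ _ hP
    obtain ⟨s, hs, hcard⟩ := hP.1
    have hne : Nonempty P := by
      obtain ⟨x, _⟩ := Finset.card_pos.1 (show 0 < s.card by omega)
      exact ⟨x⟩
    rcases reduction7 hc h P with h3 | h3
    · have := InD7_width_le h3 s hs
      omega
    · exact h3

end Pool.Agent.Results.MP_c890a7_co.SeriesParallelThreeSteps
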